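import Pool.Agent.TH93.U2.Defs

/-!
# Disjoint `NP` pairs and few guessed bits, relative to an oracle

(Continues `Pool.Agent.H628R3.RO.Defs`, `Pool.Agent.H822R2.ESY.Final` and `Pool.Agent.TH93.U2.Defs`.)
-/

set_option autoImplicit false

namespace Pool.Agent.TH93.DP

open Pool.Agent.NPC Pool.Agent.H628R3.RO
open Pool.Agent.H822R2.ESY (join)

/-- The string of `g(n)` ones can be computed in polynomial time from every string of length `n`. -/
def Nice (g : ℕ → ℕ) : Prop :=
  ∃ F : List Bool → List Bool, PolyTime F ∧ ∀ x : List Bool, F x = List.replicate (g x.length) true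

/-- `NP` relative to `X` with `g(n)` guessed bits: `x` is in `L` if and only if for some string `w` of
length at most `g |x|`, the verifier `V` accepts `x` and `w`. -/
def InG (g : ℕ → ℕ) (X : Oracle) (L : Set (List Bool)) : Prop :=
  ∃ V : List Bool → List Bool, IsFP X V ∧
    ∀ x : List Bool, x ∈ L ↔ ∃ w : List Bool, w.length ≤ g x.length ∧ V (pairBits x w) = [true]

/-- `T` separates `K₀` and `K₁`. -/
def Sepr (K₀ K₁ : Set (List Bool)) (T : Oracle) : Prop :=
  (∀ q ∈ K₀, T q = true) ∧ ∀ q ∈ K₁, T q = false

/-- The oracle `O` is at least as strong as all disjoint `NP` pairs relative to `X` together: every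
pair has a separator `T` such that everything that is computed in polynomial time relative to
`X ⊕ T` is computed in polynomial time relative to `O`. -/
def Solves (X O : Oracle) : Prop :=
  ∀ K₀ K₁ : Set (List Bool), IsPair (IsNP X) K₀ K₁ → ∃ T : Oracle, Sepr K₀ K₁ T ∧
    ∀ F : List Bool → List Bool, IsFP (join X T) F → IsFP O F

end Pool.Agent.TH93.DP
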