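import Pool.Agent.TH93.DP.Key
import Pool.Agent.TH93.U2.Final
import Pool.Agent.TH93.GL.Low
import Pool.Agent.TH93.GL.Up

/-!
Almost every oracle, and the construction of the separators. (This adapts
`Pool.Agent.TH93.U2.Main`.)
-/

set_option autoImplicit false

namespace Pool.Agent.TH93.DP

open MeasureTheory Pool.Agent.NPC
open Pool.Agent.H628R3.RO hiding strs mem_strs
open Pool.Agent.H822R2.ESY (join strs mem_strs card_strs Wx mem_Wx card_Wx EE Cert plant_pair
  cover turan Mem bnd bnd_spec cert_Mem loc_Mem Cert.mono exists_list acc cert_M IsP IsBPP)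
open Pool.Agent.TH93.U2 (Test Soft Fam QAlg bpTest bpR amTest amR bqTest qR qmTest fam_bp fam_am
  fam_bq fam_qm qb ilen MM Tame tame_MM code length_code code_inj Pr sel bb join2_congr St Disj
  step_pair IsAM IsQMA amNum amPr_eq amPr inp)
open Pool.Agent.H620R2.Gauge (IsBQP)
open Pool.Agent.TH93.GL (NiceT countable_niceT poly_log)
open Pool.Agent.TH683.AT (poly_small)

/-! ## The algorithms -/

/-- randomized algorithms, Arthur-Merlin games, quantum algorithms, quantum verifiers -/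
abbrev Idx : Type := (Alg × Polynomial ℕ) ⊕ (Alg × Polynomial ℕ) ⊕ QAlg ⊕ QAlg

/-- the tests -/
noncomputable def aa : Idx → Test
  | Sum.inl i => bpTest i.1 i.2
  | Sum.inr (Sum.inl i) => amTest i.1 i.2 none
  | Sum.inr (Sum.inr (Sum.inl i)) => bqTest i none
  | Sum.inr (Sum.inr (Sum.inr i)) => qmTest i none

/-- the bounds -/
noncomputable def rr : Idx → ℕ → ℕ
  | Sum.inl i => bpR i.1 i.2
  | Sum.inr (Sum.inl i) => amR i.1 i.2 none
  | Sum.inr (Sum.inr (Sum.inl i)) => qR i none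
  | Sum.inr (Sum.inr (Sum.inr i)) => qR i none

theorem fam_rr (i : Idx) : Fam (aa i) (rr i) := by
  rcases i with i | i | i | i
  · exact fam_bp i.1 i.2
  · exact fam_am i.1 i.2 none
  · exact fam_bq i none
  · exact fam_qm i none

theorem poly_rr (i : Idx) : ∃ P : Polynomial ℕ, ∀ n, rr i n ≤ P.eval n := by
  rcases i with i | i | i | i
  · refine ⟨(i.1.p + bnd i.1).comp (Polynomial.C 2 * Polynomial.X + Polynomial.C 1 + i.2) +
      Polynomial.C 1, fun n => ?_⟩
    simp only [Polynomial.eval_add, Polynomial.eval_C, Polynomial.eval_comp, Polynomial.eval_mul,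
      Polynomial.eval_X, rr, bpR]
    exact le_rfl
  · refine ⟨(i.1.p + bnd i.1).comp (Polynomial.C 4 * i.2.comp (Polynomial.C 2 * Polynomial.X +
      Polynomial.C 1) + Polynomial.C 2 + (Polynomial.C 2 * Polynomial.X + Polynomial.C 1)) +
      Polynomial.C 1, fun n => ?_⟩
    simp only [Polynomial.eval_add, Polynomial.eval_C, Polynomial.eval_comp, Polynomial.eval_mul,
      Polynomial.eval_X, rr, amR, ilen]
    exact le_rfl
  · refine ⟨(qb i).comp (Polynomial.C 2 * Polynomial.X + Polynomial.C 1) + Polynomial.C 1,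
      fun n => ?_⟩
    simp only [Polynomial.eval_add, Polynomial.eval_C, Polynomial.eval_comp, Polynomial.eval_mul,
      Polynomial.eval_X, rr, qR, ilen]
    exact le_rfl
  · refine ⟨(qb i).comp (Polynomial.C 2 * Polynomial.X + Polynomial.C 1) + Polynomial.C 1,
      fun n => ?_⟩
    simp only [Polynomial.eval_add, Polynomial.eval_C, Polynomial.eval_comp, Polynomial.eval_mul,
      Polynomial.eval_X, rr, qR, ilen]
    exact le_rfl

/-- the good oracles, for given algorithms -/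
def GG (g : ℕ → ℕ) (Bf : Oracle) (D : List (ℕ × Pr)) (a : Test) (r : ℕ → ℕ) (t₀ : ℕ)
    (S₀ : List (List Bool)) (n : ℕ) : Set Oracle :=
  Good g (MM Bf D true) (MM Bf D false) Bf a t₀ S₀ n (bb r t₀ n)

/-- the function `g` is not `O (log n)`, also without its first values -/
def Unb (g : ℕ → ℕ) : Prop := ∀ c N : ℕ, ∃ n ≥ N, c * (Nat.log 2 n + 1) < g n

theorem unb_of {g : ℕ → ℕ} (h : ¬ ∃ c, ∀ n, g n ≤ c * (Nat.log 2 n + 1)) : Unb g := by
  intro c N
  by_contra hcon
  push Not at hcon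
  apply h
  refine ⟨c + ∑ i ∈ Finset.range N, g i, fun n => ?_⟩
  by_cases hn : n < N
  · have h1 : g n ≤ ∑ i ∈ Finset.range N, g i :=
      Finset.single_le_sum (f := g) (fun i _ => Nat.zero_le _) (Finset.mem_range.2 hn)
    exact (h1.trans (Nat.le_add_left _ _)).trans (Nat.le_mul_of_pos_right _ (by omega))
  · exact (hcon n (by omega)).trans (Nat.mul_le_mul_right _ (Nat.le_add_right _ _))

section

variable {g : ℕ → ℕ} {Bf : Oracle} {D : List (ℕ × Pr)} {a : Test} {r : ℕ → ℕ} (t₀ : ℕ)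
    (S₀ : List (List Bool)) {P P' Q Q' : Polynomial ℕ}

/-- a bound for the lengths of all questions -/
def RR (g r : ℕ → ℕ) (Q Q' : Polynomial ℕ) (t₀ n : ℕ) : ℕ :=
  Q.eval (bb r t₀ n) + Q'.eval (bb r t₀ n) + bb r t₀ n + (n + 2 * g n + 2)

theorem aa_congr (ha : Fam a r) {n : ℕ} {A A' S S' : Oracle} {x : List Bool} (hx : x.length = n)
    (hA : ∀ u : List Bool, u.length ≤ bb r t₀ n → A u = A' u)
    (hS : ∀ u : List Bool, u.length ≤ bb r t₀ n → S u = S' u) (i : Bool) :
    a i (join (join A Bf) S) x ↔ a i (join (join A' Bf) S') x := by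
  refine ha.loc _ _ x (fun y hy => ?_) i
  refine join2_congr hA hS y ?_
  rw [hx] at hy
  unfold bb
  omega

theorem loc_GG (ha : Fam a r) (h : Tame (MM Bf D true) P Q) (h' : Tame (MM Bf D false) P' Q')
    (n : ℕ) : Loc {u | u.length ≤ RR g r Q Q' t₀ n} (GG g Bf D a r t₀ S₀ n) := by
  refine loc_Good (by unfold bb; omega) (fun q hq => M2.Loc.mono (h _ q hq).2 ?_)
    (fun q hq => M2.Loc.mono (h' _ q hq).2 ?_) ?_ ?_
  · intro u hu
    simp only [Set.mem_ofPred_eq] at hu ⊢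
    unfold RR
    omega
  · intro u hu
    simp only [Set.mem_ofPred_eq] at hu ⊢
    unfold RR
    omega
  · intro i A A' S x hx hA
    refine aa_congr t₀ ha hx (fun u hu => hA u ?_) (fun _ _ => rfl) i
    unfold RR
    omega
  · unfold RR
    omega

theorem key (ha : Fam a r) {Pr : Polynomial ℕ} (hPr : ∀ n, r n ≤ Pr.eval n)
    (h : Tame (MM Bf D true) P Q) (h' : Tame (MM Bf D false) P' Q') :
    ∃ QK : Polynomial ℕ, ∀ n, QK.eval n ≤ 2 ^ g n → QK.eval n < 2 ^ n →
      ∀ t < n, ∀ L : List (List Bool), 0 < prob (cyl t L) →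
        1 / 24 * prob (cyl t L) < prob (cyl t L \ (GG g Bf D a r t₀ S₀ n ∩ cyl t L)) := by
  obtain ⟨bP, hbP⟩ : ∃ bP : Polynomial ℕ, bP = Polynomial.C t₀ + Polynomial.X := ⟨_, rfl⟩
  obtain ⟨PP, hPP⟩ : ∃ PP : Polynomial ℕ, PP = (P + P').comp bP := ⟨_, rfl⟩
  obtain ⟨sP, hsP⟩ : ∃ sP : Polynomial ℕ, sP = Polynomial.C 144 *
    ((Polynomial.C 2 * PP + Polynomial.C 1) * Polynomial.X ^ 2) + Polynomial.C 3 * PP +
      Polynomial.C 1 := ⟨_, rfl⟩
  obtain ⟨K, hK⟩ : ∃ K : Polynomial ℕ, K = Polynomial.C 256 * sP * (PP + Polynomial.C 1) :=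
    ⟨_, rfl⟩
  refine ⟨K.comp Pr, fun n hg hn t ht L hpos => ?_⟩
  rw [Polynomial.eval_comp] at hg hn
  have hKr := eval_mono K (hPr n)
  have ebP : bP.eval (r n) = bb r t₀ n := by
    rw [hbP]
    unfold bb
    simp only [Polynomial.eval_add, Polynomial.eval_C, Polynomial.eval_X]
  obtain ⟨T, hT⟩ : ∃ T, T = P.eval (bb r t₀ n) + P'.eval (bb r t₀ n) := ⟨_, rfl⟩
  have ePP : PP.eval (r n) = T := by
    rw [hPP, hT, Polynomial.eval_comp, ebP, Polynomial.eval_add]
  obtain ⟨s, hs⟩ : ∃ s, s = 144 * ((2 * T + 1) * r n ^ 2) + 3 * T + 1 := ⟨_, rfl⟩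
  have esP : sP.eval (r n) = s := by
    rw [hsP, hs]
    simp only [Polynomial.eval_add, Polynomial.eval_C, Polynomial.eval_mul, Polynomial.eval_pow,
      Polynomial.eval_X, ePP]
  have eK : K.eval (r n) = 256 * s * (T + 1) := by
    rw [hK]
    simp only [Polynomial.eval_add, Polynomial.eval_C, Polynomial.eval_mul, esP, ePP]
  rw [eK] at hKr
  have h1 : 256 * s * (T + 1) = 256 * s * T + 256 * s := by ring
  have hg1 : 1 ≤ g n := by
    by_contra hc
    have h0 : g n = 0 := by omega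
    rw [h0, pow_zero] at hg
    omega
  refine key_abs (P := T) (R := r n) (s := s)
    (RR := RR g r Q Q' t₀ n) hg1 (by unfold bb; omega) (ha.pos n) ?_ ?_ ?_ ?_ ?_
    ?_ ?_ hs (by omega) (by omega) ht L hpos
  · intro q hq
    exact (h _ q hq).1.mono (by rw [hT]; omega)
  · intro q hq
    exact (h' _ q hq).1.mono (by rw [hT]; omega)
  · intro q hq
    refine M2.Loc.mono (h _ q hq).2 ?_
    intro u hu
    simp only [Set.mem_ofPred_eq] at hu ⊢
    unfold RR
    omega
  · intro q hq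
    refine M2.Loc.mono (h' _ q hq).2 ?_
    intro u hu
    simp only [Set.mem_ofPred_eq] at hu ⊢
    unfold RR
    omega
  · intro x hx
    rw [← hx]
    exact ha.soft x
  · intro i A A' S x hx hA
    refine aa_congr t₀ ha hx (fun u hu => hA u ?_) (fun _ _ => rfl) i
    unfold RR
    omega
  · unfold RR
    omega

theorem ae_GG (hg : Unb g) (Bf : Oracle) (D : List (ℕ × Pr)) (ha : Fam a r) {Pr : Polynomial ℕ}
    (hPr : ∀ n, r n ≤ Pr.eval n) :
    ∀ᵐ A ∂randomOracle, ∃ n, A ∉ GG g Bf D a r t₀ S₀ n := by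
  obtain ⟨P, Q, hP⟩ := tame_MM Bf true D
  obtain ⟨P', Q', hP'⟩ := tame_MM Bf false D
  have hm : ∀ n, MeasurableSet (GG g Bf D a r t₀ S₀ n) := fun n =>
    measurableSet_of_loc (finite_length_le _) (loc_GG t₀ S₀ ha hP hP' n)
  obtain ⟨T, hT⟩ : ∃ T : Set Oracle, T = ⋂ n, GG g Bf D a r t₀ S₀ n := ⟨_, rfl⟩
  have hI : MeasurableSet T := by
    rw [hT]
    exact MeasurableSet.iInter fun n => hm _
  have h0 : randomOracle T = 0 := by
    by_contra hne
    have hpos : 0 < prob T := ENNReal.toReal_pos hne (measure_ne_top _ _)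
    obtain ⟨t, L, h1, h2⟩ := exists_cyl hI hpos (δ := 1 / 24) (by norm_num)
    obtain ⟨QK, hQK⟩ := key (g := g) t₀ S₀ ha hPr hP hP'
    obtain ⟨c, hc⟩ := poly_log QK
    obtain ⟨n₀, hn₀⟩ := poly_small (QK + 1)
    obtain ⟨n, hn, hcn⟩ := hg c (max n₀ (t + 1))
    have h3 := hQK n ((hc n).trans (Nat.pow_le_pow_right (by norm_num) hcn.le)) (by
      have := hn₀ n ((le_max_left _ _).trans hn)
      rw [Polynomial.eval_add, Polynomial.eval_one] at this
      omega) t (by have := (le_max_right n₀ (t + 1)).trans hn; omega) L h1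
    have hcm : MeasurableSet (cyl t L) :=
      measurableSet_of_loc (finite_length_le t) (loc_cyl t L)
    have h4 : prob (cyl t L) = prob (cyl t L ∩ (GG g Bf D a r t₀ S₀ n ∩ cyl t L)) +
        prob (cyl t L \ (GG g Bf D a r t₀ S₀ n ∩ cyl t L)) := by
      unfold prob
      rw [measureReal_inter_add_sdiff ((hm n).inter hcm)]
    have h5 : prob (T ∩ cyl t L) ≤
        prob (cyl t L ∩ (GG g Bf D a r t₀ S₀ n ∩ cyl t L)) := by
      apply M2.prob_mono
      rintro A ⟨hA1, hA2⟩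
      rw [hT] at hA1
      exact ⟨hA2, Set.mem_iInter.1 hA1 _, hA2⟩
    linarith
  have h1 : ∀ᵐ A ∂randomOracle, A ∉ T := measure_eq_zero_iff_ae_notMem.1 h0
  filter_upwards [h1] with A hA
  rw [hT, Set.mem_iInter] at hA
  push Not at hA
  exact hA

end

theorem ae_all (Bf : Oracle) : ∀ᵐ A ∂randomOracle, ∀ g, NiceT (fun n => n) g → Unb g →
    ∀ (D : List (ℕ × Pr)) (i : Idx) (t₀ : ℕ) (S₀ : List (List Bool)),
      ∃ n, A ∉ GG g Bf D (aa i) (rr i) t₀ S₀ n := by
  refine (ae_ball_iff (countable_niceT (fun n => n))).2 fun g _ => ?_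
  by_cases hg : Unb g
  · have h1 : ∀ᵐ A ∂randomOracle, ∀ (D : List (ℕ × Pr)) (i : Idx) (t₀ : ℕ)
        (S₀ : List (List Bool)), ∃ n, A ∉ GG g Bf D (aa i) (rr i) t₀ S₀ n := by
      simp only [ae_all_iff]
      intro D i t₀ S₀
      obtain ⟨P, hP⟩ := poly_rr i
      exact ae_GG t₀ S₀ hg Bf D (fam_rr i) hP
    filter_upwards [h1] with A hA _
    exact hA
  · exact Filter.Eventually.of_forall fun A h => absurd h hg

/-! ## The stages -/

section

variable {A Bf : Oracle}

theorem step_test {g : ℕ → ℕ} (hA : ∀ (D : List (ℕ × Pr)) (i : Idx) (t₀ : ℕ)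
      (S₀ : List (List Bool)), ∃ n, A ∉ GG g Bf D (aa i) (rr i) t₀ S₀ n) (σ : St A Bf) (i : Idx) :
    ∃ σ' : St A Bf, σ.t < σ'.t ∧ σ.D ⊆ σ'.D ∧
      (∀ q : List Bool, q.length ≤ σ.t → σ'.S q = σ.S q) ∧
      ∃ x : List Bool,
        ∀ S'' : Oracle, (∀ q : List Bool, q.length ≤ σ'.t → S'' q = σ'.S q) →
          ¬ Right g Bf (aa i) A S'' x := by
  classical
  obtain ⟨S₀, hS₀⟩ := exists_list σ.t σ.S
  obtain ⟨n, hn⟩ := hA σ.D i σ.t S₀
  unfold GG Good at hn
  rw [Set.mem_ofPred_eq, not_and, not_and] at hn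
  have h1 := hn (fun q _ => σ.dis q) (fun q hq => by
    rw [hS₀ q hq]
    exact σ.sep q)
  push Not at h1
  obtain ⟨S₁, h2, h3, x, hx, h4⟩ := h1
  have hbt : σ.t ≤ bb (rr i) σ.t n := by
    unfold bb
    omega
  obtain ⟨S', hS'⟩ : ∃ S' : Oracle, ∀ q, S' q = if q.length ≤ bb (rr i) σ.t n then S₁ q else
      σ.S q := ⟨_, fun _ => rfl⟩
  refine ⟨⟨max (σ.t + 1) (bb (rr i) σ.t n), S', σ.D, σ.dis, ?_, ?_⟩,
    lt_of_lt_of_le (Nat.lt_succ_self σ.t) (le_max_left _ _), fun _ h => h, ?_, x, ?_⟩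
  · intro q
    by_cases hq : q.length ≤ bb (rr i) σ.t n
    · rw [hS', if_pos hq]
      exact h3 q hq
    · rw [hS', if_neg hq]
      exact σ.sep q
  · intro d hd
    have h5 := σ.num d hd
    have h6 := le_max_left (σ.t + 1) (bb (rr i) σ.t n)
    omega
  · intro q hq
    show S' q = σ.S q
    rw [hS', if_pos (hq.trans hbt), h2 q hq, hS₀ q hq]
  · intro S'' hS'' h5
    apply h4
    have h6 : ∀ j, (aa i j (join (join A Bf) S'') x ↔ aa i j (join (join A Bf) S₁) x) := by
      intro j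
      refine aa_congr σ.t (fam_rr i) hx (fun _ _ => rfl) ?_ j
      intro q hq
      rw [hS'' q (hq.trans (le_max_right _ _))]
      show S' q = S₁ q
      rw [hS', if_pos hq]
    unfold Right at h5 ⊢
    rw [← h6, ← h6]
    exact h5

/-- the separators -/
theorem exists_sep {g : ℕ → ℕ} (hA : ∀ (D : List (ℕ × Pr)) (i : Idx) (t₀ : ℕ)
      (S₀ : List (List Bool)), ∃ n, A ∉ GG g Bf D (aa i) (rr i) t₀ S₀ n) :
    ∃ S : Oracle, (∀ π : Pr, Disj (join A Bf) π → ∃ l : ℕ, ∀ q : List Bool,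
        (Mem π.1.1 π.1.2 (join A Bf) q → S (code l q) = true) ∧
        (Mem π.2.1 π.2.2 (join A Bf) q → S (code l q) = false)) ∧
      ∀ i : Idx, ∃ x : List Bool, ¬ Right g Bf (aa i) A S x := by
  classical
  have hneA : Nonempty Alg := ⟨⟨fun _ => [], Pool.Agent.H622R2.polyTime_of_poly_list
    (NPC.Poly.const _), 0⟩⟩
  obtain ⟨e, he⟩ := exists_surjective_nat Idx
  obtain ⟨f, hf⟩ := exists_surjective_nat Pr
  have hstep : ∀ (k : ℕ) (σ : St A Bf), ∃ σ' : St A Bf, σ.t < σ'.t ∧ σ.D ⊆ σ'.D ∧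
      (∀ q : List Bool, q.length ≤ σ.t → σ'.S q = σ.S q) ∧
      (Disj (join A Bf) (f k) → ∃ l, (l, f k) ∈ σ'.D) ∧
      ∃ x : List Bool, ∀ S'' : Oracle,
        (∀ q : List Bool, q.length ≤ σ'.t → S'' q = σ'.S q) → ¬ Right g Bf (aa (e k)) A S'' x := by
    intro k σ
    obtain ⟨σ₁, h1, h2, h3, h4⟩ := step_pair σ (f k)
    obtain ⟨σ₂, h5, h6, h7, h8⟩ := step_test hA σ₁ (e k)
    refine ⟨σ₂, by omega, fun d hd => h6 (h2 hd), fun q hq => ?_, fun h => ?_, h8⟩
    · rw [h7 q (hq.trans h1), h3 q hq]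
    · obtain ⟨l, hl⟩ := h4 h
      exact ⟨l, h6 hl⟩
  choose nx hnx using hstep
  have hinit : St A Bf := ⟨0, fun _ => false, [], by
      rintro q ⟨⟨d, hd, -⟩, -⟩
      exact absurd hd (by simp), by
      intro q
      constructor
      · rintro ⟨d, hd, -⟩
        exact absurd hd (by simp)
      · rintro ⟨d, hd, -⟩
        exact absurd hd (by simp), by
      intro d hd
      exact absurd hd (by simp)⟩
  obtain ⟨st, hst0, hst⟩ : ∃ st : ℕ → St A Bf, st 0 = hinit ∧ ∀ k, st (k + 1) = nx k (st k) :=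
    ⟨fun k => Nat.rec hinit (fun k s => nx k s) k, rfl, fun k => rfl⟩
  have hlt : ∀ k, (st k).t < (st (k + 1)).t := fun k => by
    rw [hst]
    exact (hnx k (st k)).1
  have hge : ∀ k, k ≤ (st k).t := by
    intro k
    induction k with
    | zero => exact Nat.zero_le _
    | succ k ih =>
      have := hlt k
      omega
  have hmono : ∀ k j, (st k).t ≤ (st (k + j)).t := by
    intro k j
    induction j with
    | zero => exact le_rfl
    | succ j ih =>
      have := hlt (k + j)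
      rw [← Nat.add_assoc]
      omega
  have hsub : ∀ k j, (st k).D ⊆ (st (k + j)).D := by
    intro k j
    induction j with
    | zero => exact fun _ h => h
    | succ j ih =>
      rw [← Nat.add_assoc, hst]
      exact fun d hd => (hnx (k + j) (st (k + j))).2.1 (ih hd)
  have hag : ∀ (k j : ℕ) (q : List Bool), q.length ≤ (st k).t →
      (st (k + j)).S q = (st k).S q := by
    intro k j q hq
    induction j with
    | zero => rfl
    | succ j ih =>
      rw [← Nat.add_assoc, hst, (hnx (k + j) (st (k + j))).2.2.1 q (hq.trans (hmono k j)), ih]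
  obtain ⟨S, hS⟩ : ∃ S : Oracle, ∀ q, S q = (st q.length).S q := ⟨_, fun _ => rfl⟩
  have hSk : ∀ (k : ℕ) (q : List Bool), q.length ≤ (st k).t → S q = (st k).S q := by
    intro k q hq
    rw [hS]
    rcases Nat.le_total k q.length with h | h
    · obtain ⟨j, hj⟩ := Nat.exists_eq_add_of_le h
      rw [hj]
      exact hag k j q hq
    · obtain ⟨j, hj⟩ := Nat.exists_eq_add_of_le h
      have h1 := hag q.length j q (hge _)
      rw [← hj] at h1
      exact h1.symm
  refine ⟨S, fun π hπ => ?_, fun i => ?_⟩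
  · obtain ⟨k, rfl⟩ := hf π
    obtain ⟨l, hl⟩ := (hnx k (st k)).2.2.2.1 hπ
    rw [← hst k] at hl
    refine ⟨l, fun q => ?_⟩
    obtain ⟨m, hm⟩ : ∃ m, m = (code l q).length := ⟨_, rfl⟩
    have h1 := hsub (k + 1) m hl
    have h2 : S (code l q) = (st (k + 1 + m)).S (code l q) := by
      refine hSk _ _ ?_
      have := hge (k + 1 + m)
      omega
    rw [h2]
    have h3 := (st (k + 1 + m)).sep (code l q)
    exact ⟨fun h => h3.1 ⟨_, h1, q, rfl, h⟩, fun h => h3.2 ⟨_, h1, q, rfl, h⟩⟩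
  · obtain ⟨k, hk⟩ := he i
    obtain ⟨x, hx⟩ := (hnx k (st k)).2.2.2.2
    refine ⟨x, ?_⟩
    have h1 := hx S (fun q hq => by
      rw [← hst k] at hq ⊢
      exact hSk (k + 1) q hq)
    rw [hk] at h1
    exact h1

end

/-- the language is hard for the oracle `O` -/
structure Hard (O : Oracle) (L : Set (List Bool)) : Prop where
  bpp : ¬ IsBPP O L
  am : ¬ IsAM O Lᶜ
  bqp : ¬ IsBQP O L
  qma : ¬ IsQMA O Lᶜ

/-- Relative to a random oracle, all disjoint `NP` pairs together are not hard for the test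
language. -/
theorem main (Bf : Oracle) : ∀ᵐ A ∂randomOracle, ∀ g, NiceT (fun n => n) g → Unb g →
    ∃ S : Oracle,
    (∀ K₀ K₁ : Set (List Bool), IsPair (IsNP (join A Bf)) K₀ K₁ → ∃ l : ℕ, ∀ q : List Bool,
      (q ∈ K₀ → S (code l q) = true) ∧ (q ∈ K₁ → S (code l q) = false)) ∧
    Hard (join (join A Bf) S) (LG g A) := by
  filter_upwards [ae_all Bf] with A hA g hg hU
  obtain ⟨S, hS, hS'⟩ := exists_sep (A := A) (Bf := Bf) (hA g hg hU)
  refine ⟨S, ?_, ?_⟩
  · rintro B C ⟨⟨fB, pB, ⟨VB, hVB⟩, hB⟩, ⟨fC, pC, ⟨VC, hVC⟩, hC⟩, hdis⟩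
    have hB' : ∀ q, q ∈ B ↔ Mem VB pB (join A Bf) q := by
      intro q
      rw [hB q]
      unfold Mem
      refine exists_congr fun w => and_congr_right fun _ => ?_
      rw [hVB, Option.some_inj]
    have hC' : ∀ q, q ∈ C ↔ Mem VC pC (join A Bf) q := by
      intro q
      rw [hC q]
      unfold Mem
      refine exists_congr fun w => and_congr_right fun _ => ?_
      rw [hVC, Option.some_inj]
    obtain ⟨l, hl⟩ := hS ((VB, pB), (VC, pC))
      (fun q hq => hdis q ⟨(hB' q).2 hq.1, (hC' q).2 hq.2⟩)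
    exact ⟨l, fun q => ⟨fun hq => (hl q).1 ((hB' q).1 hq), fun hq => (hl q).2 ((hC' q).1 hq)⟩⟩
  constructor
  · rintro ⟨F, p, ⟨M, hM⟩, hF⟩
    obtain ⟨x, hx⟩ := hS' (Sum.inl (M, p))
    apply hx
    have h1 : acc M (join (join A Bf) S) x (p.eval x.length) =
        ((strs (p.eval x.length)).filter (fun r => F (pairBits x r) = [true])).card := by
      unfold acc
      congr 1
      apply Finset.filter_congr
      intro r _
      rw [hM, Option.some_inj]
    have h2 := hF x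
    rw [← h1] at h2
    exact h2
  · rintro ⟨V, p, ⟨M, hM⟩, hV⟩
    obtain ⟨x, hx⟩ := hS' (Sum.inr (Sum.inl (M, p)))
    apply hx
    have h1 := hV x
    rw [amPr_eq hM] at h1
    have h2k : (0 : ℝ) < 2 ^ p.eval x.length := by positivity
    rw [div_le_iff₀ h2k, le_div_iff₀ h2k, Set.mem_compl_iff, not_not] at h1
    refine ⟨fun h2 => ?_, fun h2 => ?_⟩
    · have h3 := h1.2 h2
      show 3 * amNum M (p.eval x.length) (join (join A Bf) S) x ≤ 2 ^ p.eval x.length
      have h4 : (3 * amNum M (p.eval x.length) (join (join A Bf) S) x : ℝ) ≤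
        2 ^ p.eval x.length := by linarith
      exact_mod_cast h4
    · have h3 := h1.1 h2
      show 2 * 2 ^ p.eval x.length ≤ 3 * amNum M (p.eval x.length) (join (join A Bf) S) x
      have h4 : (2 * 2 ^ p.eval x.length : ℝ) ≤
        3 * amNum M (p.eval x.length) (join (join A Bf) S) x := by linarith
      exact_mod_cast h4
  · rintro ⟨C', hC', hx⟩
    obtain ⟨x, hx1⟩ := hS' (Sum.inr (Sum.inr (Sum.inl ⟨C', hC'⟩)))
    apply hx1
    exact hx x
  · rintro ⟨C', hC', hx⟩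
    obtain ⟨x, hx1⟩ := hS' (Sum.inr (Sum.inr (Sum.inr ⟨C', hC'⟩)))
    apply hx1
    have h1 := hx x
    rw [Set.mem_compl_iff, not_not] at h1
    exact ⟨h1.2, h1.1⟩

end Pool.Agent.TH93.DP
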