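import Pool.Agent.TH93.DP.Defs
import Pool.Agent.TH93.DP.Main
import Pool.Agent.TH93.CC.Up
import Pool.Agent.H943R5.GC.U6

/-!
# The law for disjoint `NP` pairs and guessed bits
-/

set_option autoImplicit false

namespace Pool.Agent.TH93.DP

open MeasureTheory Pool.Agent.NPC
open Pool.Agent.H628R3.RO hiding strs mem_strs
open Pool.Agent.H822R2.ESY (join IsP IsBPP)
open Pool.Agent.TH93.U2 (IsAM IsQMA code poly_code isFP_left isFP_recode)
open Pool.Agent.H620R2.Gauge (IsBQP)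
open Pool.Agent.TH93.GL (NiceT InGuess)
open Pool.Agent.H622R2 (poly_of_polyTime polyTime_of_poly_list poly_pairBits)

theorem Nice.niceT {g : ℕ → ℕ} (hg : Nice g) : NiceT (fun n => n) g := by
  obtain ⟨F, hF, hFx⟩ := hg
  refine ⟨fun z => F (unpair z).2, polyTime_of_poly_list
    ((poly_of_polyTime hF).comp (Poly.snd poly_unpair)), fun x => ?_⟩
  simp only [unpair_pairBits, hFx]

/-- few guessed bits can be tried -/
theorem isP_of_few {g : ℕ → ℕ} (hg : Nice g) {c : ℕ} (hc : ∀ n, g n ≤ c * (Nat.log 2 n + 1))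
    {X : Oracle} {L : Set (List Bool)} (h : InG g X L) : IsP X L := by
  obtain ⟨V, hV, hx⟩ := h
  have hV' : Pool.Agent.H620R2.Gauge.IsFP X V := Pool.Agent.H943R5.GC.U6.isFP_ofRO hV
  have h1 : Poly (fun z : List Bool => unpair z) := poly_unpair
  have h2 : Poly (fun z : List Bool => (unpair z).2) := Poly.snd h1
  have h3 : Poly (fun z : List Bool => (unpair (unpair z).2).2) := Poly.snd (h1.comp h2)
  have h4 : InGuess (fun n => n) g X L := by
    refine ⟨fun z => V (pairBits (unpair (unpair z).2).2 (unpair z).1),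
      Pool.Agent.H620R2.Gauge.IsFP.precomp hV' (poly_pairBits h3 (Poly.fst h1)), fun x => ?_⟩
    simp only [unpair_pairBits]
    exact hx x
  have h5 : NiceT (fun n => n) (fun n => n) :=
    ⟨fun z => (unpair z).1, polyTime_of_poly_list (Poly.fst h1), fun x => by
      simp only [unpair_pairBits]⟩
  obtain ⟨V₂, hV₂, hx₂⟩ := Pool.Agent.TH93.CC.InGuess.toDT h5 hg.niceT hc h4
  refine ⟨fun x => V₂ (pairBits (List.replicate x.length true) x),
    Pool.Agent.H943R5.GC.U6.isFP_toRO (Pool.Agent.H620R2.Gauge.IsFP.precomp hV₂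
      (poly_pairBits (Pool.Agent.H620R2.Gauge.V7.poly_replicate (UPoly.length Poly.id)) Poly.id)),
    fun x => hx₂ x⟩

/-- the test language has `g(n)` guessed bits -/
theorem inG_LG {g : ℕ → ℕ} (hg : Nice g) (A B : Oracle) : InG g (join A B) (LG g A) := by
  obtain ⟨F, hF, hFx⟩ := hg
  have hP := poly_of_polyTime hF
  obtain ⟨Q, hQ⟩ : ∃ Q : List Bool × List Bool → List (List Bool),
      Q = fun p => asks (F p.1).length 0 (p.1 ++ p.2) := ⟨_, rfl⟩
  obtain ⟨T, hT⟩ : ∃ T : (List Bool × List Bool) × List Bool → Bool,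
      T = fun p => decide (p.1.2.length = (F p.1.1).length) && p.2.all id := ⟨_, rfl⟩
  have hQp : Poly Q := by
    rw [hQ]
    exact p_asks (UPoly.length (hP.comp (Poly.fst Poly.id))) (UPoly.const 0)
      (Poly.append (Poly.fst Poly.id) (Poly.snd Poly.id))
  have hTp : Poly T := by
    rw [hT]
    exact Poly.and (Poly.decide_eq (Poly.length (Poly.snd (Poly.fst Poly.id)))
      (Poly.length (hP.comp (Poly.fst (Poly.fst Poly.id))))) (p_all_id (Poly.snd Poly.id))
  have hV : IsFP A (fun y => (fun z : List Bool × List Bool => [T (unpair z.1, z.2)])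
      (y, ((fun y => Q (unpair y)) y).map A)) := by
    refine IsFP.tt (Q := fun y => Q (unpair y)) (H := fun z => [T (unpair z.1, z.2)])
      (hQp.comp poly_unpair) ?_
    exact Poly.cons (hTp.comp (Poly.pair (poly_unpair.comp (Poly.fst Poly.id))
      (Poly.snd Poly.id))) (NPC.Poly.const [])
  have hacc : ∀ x w : List Bool, [T ((x, w), (Q (x, w)).map A)] = [true] ↔
      w.length = g x.length ∧ Hit (g x.length) (0, x ++ w) A := by
    intro x w
    rw [hT, hQ]
    simp only [List.cons.injEq, and_true, Bool.and_eq_true, decide_eq_true_eq, asks_all, hFx,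
      List.length_replicate]
  refine ⟨_, isFP_left B hV, fun x => ?_⟩
  simp only [unpair_pairBits, hacc]
  constructor
  · rintro ⟨w, hw, hh⟩
    exact ⟨w, hw.le, hw, hh⟩
  · rintro ⟨w, -, hw, hh⟩
    exact ⟨w, hw, hh⟩

theorem isNP_single (X : Oracle) (u : List Bool) : IsNP X {x | x = u} := by
  refine ⟨fun z => [decide ((unpair z).1 = u)], 0, IsFP.of_poly (Poly.cons (Poly.decide_eq
    (Poly.fst poly_unpair) (NPC.Poly.const u)) (NPC.Poly.const [])), fun x => ?_⟩
  simp only [unpair_pairBits, List.cons.injEq, and_true, decide_eq_true_eq, Set.mem_ofPred_eq]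
  constructor
  · intro h
    exact ⟨[], Nat.zero_le _, h⟩
  · rintro ⟨_, _, h⟩
    exact h

/-- **The law for disjoint `NP` pairs and guessed bits.** -/
theorem law (B : Oracle) : ∀ᵐ A ∂randomOracle, ∀ g : ℕ → ℕ, Nice g → List.TFAE [
    ∃ c, ∀ n, g n ≤ c * (Nat.log 2 n + 1),
    ∀ L, InG g (join A B) L → IsP (join A B) L,
    ∃ K₀ K₁ : Set (List Bool), IsPair (IsNP (join A B)) K₀ K₁ ∧ K₀.Nonempty ∧ K₁.Nonempty ∧
      ∀ L, InG g (join A B) L → ∀ T, Sepr K₀ K₁ T → IsP (join (join A B) T) L,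
    ∀ L, InG g (join A B) L → ∃ K₀ K₁ : Set (List Bool), IsPair (IsNP (join A B)) K₀ K₁ ∧
      ∀ T, Sepr K₀ K₁ T → IsBPP (join (join A B) T) L ∨ IsAM (join (join A B) T) Lᶜ,
    ∀ L, InG g (join A B) L → ∀ O, Solves (join A B) O →
      IsBPP O L ∨ IsBQP O L ∨ IsAM O Lᶜ ∨ IsQMA O Lᶜ] := by
  filter_upwards [main B] with A hA g hg
  tfae_have 1 → 2 := by
    rintro ⟨c, hc⟩ L hL
    exact isP_of_few hg hc hL
  tfae_have 2 → 3 := by
    intro h
    refine ⟨{x | x = []}, {x | x = [true]}, ⟨isNP_single _ _, isNP_single _ _, ?_⟩, ⟨[], rfl⟩,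
      ⟨[true], rfl⟩, fun L hL T _ => ?_⟩
    · rintro x ⟨h1, h2⟩
      simp only [Set.mem_ofPred_eq] at h1 h2
      rw [h1] at h2
      simp at h2
    · obtain ⟨F, hF, hx⟩ := h L hL
      exact ⟨F, isFP_left T hF, hx⟩
  tfae_have 3 → 4 := by
    rintro ⟨K₀, K₁, h1, _, _, h2⟩ L hL
    exact ⟨K₀, K₁, h1, fun T hT => Or.inl (h2 L hL T hT).isBPP⟩
  tfae_have 4 → 5 := by
    intro h L hL O hO
    obtain ⟨K₀, K₁, h1, h2⟩ := h L hL
    obtain ⟨T, hT, hTO⟩ := hO K₀ K₁ h1
    rcases h2 T hT with ⟨F, p, hF, hx⟩ | ⟨V, p, hV, hx⟩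
    · exact Or.inl ⟨F, p, hTO F hF, hx⟩
    · exact Or.inr (Or.inr (Or.inl ⟨V, p, hTO V hV, hx⟩))
  tfae_have 5 → 1 := by
    intro h
    by_contra hcon
    obtain ⟨S, hS, hH⟩ := hA g hg.niceT (unb_of hcon)
    have hO : Solves (join A B) (join (join A B) S) := by
      intro K₀ K₁ hK
      obtain ⟨l, hl⟩ := hS K₀ K₁ hK
      exact ⟨fun q => S (code l q), ⟨fun q hq => (hl q).1 hq, fun q hq => (hl q).2 hq⟩,
        fun F hF => isFP_recode (poly_code l) hF⟩
    rcases h _ (inG_LG hg A B) _ hO with h1 | h1 | h1 | h1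
    · exact hH.bpp h1
    · exact hH.bqp h1
    · exact hH.am h1
    · exact hH.qma h1
  tfae_finish

end Pool.Agent.TH93.DP
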